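import Pool.Agent.H652Z.RingSquare

/-- There is a nonzero finitely generated associative unital ring isomorphic to its own square. -/
theorem Pool.Agent.Results.MP_1ea425_al.Exists.result :
    ∃ (R : Type) (_ : Ring R), Nontrivial R ∧
      (∃ S : Finset R, Subring.closure (S : Set R) = ⊤) ∧ Nonempty (R ≃+* R × R) :=
  Pool.Agent.H652Z.RingSquare.main
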